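import Mathlib
import Pool.Agent.W416.Equidim

set_option autoImplicit false

/-!
The two remaining tasks for the second ring `RP = RR[[t]]/(s t)` of the starting modules: its
dimension is at least four, the dimension of `RP / cP` is at most one, and the ideal `cP` contains
no weakly regular sequence of length three.
-/

namespace Pool.Agent.Helper53K9.GC

open Pool.Agent.H607R3.PS H51R3.PS IsLocalRing
open scoped Pointwise

variable {T : Type} [CommRing T] {α β γ : T}

/-- the image of the variable `t` in `RP` -/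
noncomputable def tv (T : Type) [CommRing T] (α β γ : T) : RP T α β γ :=
  Ideal.Quotient.mk _ (PowerSeries.X)

theorem s_mul_tv : toRP (RR.s : RR T α β γ) * tv T α β γ = 0 := by
  have h : toRP (RR.s : RR T α β γ) * tv T α β γ =
      Ideal.Quotient.mk _ (PowerSeries.C (RR.s : RR T α β γ) * PowerSeries.X) := by
    rw [map_mul]; rfl
  rw [h, Ideal.Quotient.eq_zero_iff_mem]
  exact Ideal.subset_span rfl

/-- every element of `RP` is a constant plus a multiple of `t` -/
theorem exists_decomp (f : RP T α β γ) : ∃ (u : RR T α β γ) (g : RP T α β γ),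
    f = toRP u + g * tv T α β γ := by
  obtain ⟨f, rfl⟩ := Ideal.Quotient.mk_surjective f
  obtain ⟨g, hg⟩ := (PowerSeries.X_dvd_iff (φ := f - PowerSeries.C (PowerSeries.constantCoeff f))).2
    (by rw [map_sub, PowerSeries.constantCoeff_C, sub_self])
  refine ⟨PowerSeries.constantCoeff f, Ideal.Quotient.mk _ g, ?_⟩
  have e : f = PowerSeries.C (PowerSeries.constantCoeff f) + g * PowerSeries.X := by
    rw [mul_comm g, ← hg]; ring
  conv_lhs => rw [e]
  rw [map_add, map_mul]
  rfl

/-- the constant coefficient on `RP` -/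
noncomputable def ctm (T : Type) [CommRing T] (α β γ : T) : RP T α β γ →+* RR T α β γ :=
  Ideal.Quotient.lift _ (PowerSeries.constantCoeff (R := RR T α β γ)) (by
    intro f hf
    rw [Ideal.mem_span_singleton] at hf
    obtain ⟨c, rfl⟩ := hf
    simp)

theorem ctm_toRP (u : RR T α β γ) : ctm T α β γ (toRP u) = u := by
  change ctm T α β γ (Ideal.Quotient.mk _ (PowerSeries.C u)) = u
  rw [ctm, Ideal.Quotient.lift_mk, PowerSeries.constantCoeff_C]

theorem ctm_tv : ctm T α β γ (tv T α β γ) = 0 := by
  rw [ctm, tv, Ideal.Quotient.lift_mk, PowerSeries.constantCoeff_X]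

/-! ### Two general lemmas -/

/-- a weakly regular sequence in a prime ideal is not longer than the height of the prime -/
theorem length_le_height {R : Type} [CommRing R] [IsNoetherianRing R] (Q : Ideal R) [Q.IsPrime]
    (rs : List R) (hmem : ∀ r ∈ rs, r ∈ Q) (hreg : RingTheory.Sequence.IsWeaklyRegular R rs) :
    ((rs.length : ℕ) : WithBot ℕ∞) ≤ (Q.height : WithBot ℕ∞) := by
  have h1 := hreg.isRegular_of_isLocalization_of_mem (Localization.AtPrime Q) Q hmem
  have h2 := ringKrullDim_add_length_eq_ringKrullDim_of_isRegular _ h1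
  rw [IsLocalization.AtPrime.ringKrullDim_eq_height Q (Localization.AtPrime Q),
    List.length_map] at h2
  rw [← h2]
  have h4 : (0 : WithBot ℕ∞) ≤ ringKrullDim (Localization.AtPrime Q ⧸
      Ideal.ofList (rs.map (algebraMap R (Localization.AtPrime Q)))) := by
    have : Nontrivial (Localization.AtPrime Q ⧸
        Ideal.ofList (rs.map (algebraMap R (Localization.AtPrime Q)))) := by
      apply Ideal.Quotient.nontrivial_iff.mpr
      intro h
      apply h1.2
      rw [h]
      simp
    exact ringKrullDim_nonneg_of_nontrivial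
  calc ((rs.length : ℕ) : WithBot ℕ∞) = 0 + ((rs.length : ℕ) : WithBot ℕ∞) := by rw [zero_add]
    _ ≤ _ := add_le_add h4 le_rfl

/-- if every prime containing an element of the maximal ideal is maximal then the dimension is at
most one -/
theorem dim_le_one {B : Type} [CommRing B] [IsNoetherianRing B] [IsLocalRing B] (e : B)
    (he : e ∈ maximalIdeal B) (h : ∀ I : Ideal B, I.IsPrime → e ∈ I → I.IsMaximal) :
    ringKrullDim B ≤ 1 := by
  have h1 : ringKrullDim B ≤ ringKrullDim (B ⧸ e • (⊤ : Ideal B)) + 1 :=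
    ringKrullDim_le_ringKrullDim_quotSMulTop_succ he
  have h2 : ringKrullDim (B ⧸ e • (⊤ : Ideal B)) ≤ 0 := by
    have h3 : Ring.KrullDimLE 0 (B ⧸ e • (⊤ : Ideal B)) := by
      refine Ring.KrullDimLE.mk₀ fun I hI => ?_
      let f : B →+* B ⧸ e • (⊤ : Ideal B) := Ideal.Quotient.mk (e • (⊤ : Ideal B))
      have hsurj : Function.Surjective f := Ideal.Quotient.mk_surjective
      have hp : (I.comap f).IsPrime := Ideal.comap_isPrime _ _
      have hm : (I.comap f).IsMaximal := by
        refine h _ hp ?_
        change f e ∈ I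
        have : f e = 0 := by
          apply Ideal.Quotient.eq_zero_iff_mem.mpr
          have := Submodule.smul_mem_pointwise_smul (1 : B) e (⊤ : Ideal B) trivial
          simpa using this
        rw [this]
        exact I.zero_mem
      have hI2 : I = (I.comap f).map f := (Ideal.map_comap_of_surjective _ hsurj I).symm
      have h5 := Ideal.map_eq_top_or_isMaximal_of_surjective f hsurj hm
      rw [← hI2] at h5
      exact h5.resolve_left hI.ne_top
    have h5 := (Ring.krullDimLE_iff (n := 0) (R := B ⧸ e • (⊤ : Ideal B))).1 h3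
    simpa using h5
  refine h1.trans ?_
  calc ringKrullDim (B ⧸ e • (⊤ : Ideal B)) + 1 ≤ 0 + 1 := add_le_add h2 le_rfl
    _ = 1 := by norm_num

/-! ### The dimension of `RP` -/

section Base

variable [IsLocalRing T] [IsNoetherianRing T] [IsDomain T]

theorem four_le_dim (hB : Base T α β γ) : (4 : WithBot ℕ∞) ≤ ringKrullDim (RP T α β γ) := by
  have h1 := dimA hB
  have h2 := ringKrullDim_succ_le_ringKrullDim_powerseries
    (R := RR T α β γ ⧸ (Ideal.span {RR.s} : Ideal (RR T α β γ)))
  have h3 : ringKrullDim (PowerSeries (RR T α β γ ⧸ (Ideal.span {RR.s} : Ideal (RR T α β γ)))) ≤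
      ringKrullDim (RP T α β γ) := by
    refine ringKrullDim_le_of_surjective (Ideal.Quotient.lift _
      (PowerSeries.map (Ideal.Quotient.mk (Ideal.span {RR.s} : Ideal (RR T α β γ)))) ?_) ?_
    · intro f hf
      rw [Ideal.mem_span_singleton] at hf
      obtain ⟨c, rfl⟩ := hf
      have : (Ideal.Quotient.mk (Ideal.span {RR.s} : Ideal (RR T α β γ))) RR.s = 0 := by
        rw [Ideal.Quotient.eq_zero_iff_mem]
        exact Ideal.subset_span rfl
      rw [map_mul, map_mul, PowerSeries.map_C, this, map_zero, zero_mul, zero_mul]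
    · refine Ideal.Quotient.lift_surjective_of_surjective _ _ ?_
      exact PowerSeries.map_surjective _ Ideal.Quotient.mk_surjective
  refine le_trans ?_ (h2.trans h3)
  calc (4 : WithBot ℕ∞) = 3 + 1 := by norm_num
    _ ≤ _ := add_le_add h1 le_rfl

/-! ### The dimension of `RP / cP` -/

/-- the ideal `cP` is the extension of `cI` -/
theorem toRP_mem_cP (u : RR T α β γ) (hu : u ∈ cI (RR.x : RR T α β γ) RR.y RR.z RR.w RR.s) :
    toRP u ∈ cP T α β γ := by
  have h : cI (RR.x : RR T α β γ) RR.y RR.z RR.w RR.s ≤ (cP T α β γ).comap toRP := by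
    unfold cI
    rw [Ideal.span_le]
    rintro _ ⟨i, rfl⟩
    have : toRP (gens (RR.x : RR T α β γ) RR.y RR.z RR.w RR.s i) =
        gens (toRP (RR.x : RR T α β γ)) (toRP RR.y) (toRP RR.z) (toRP RR.w) (toRP RR.s) i := by
      fin_cases i <;> simp [gens]
    change toRP (gens (RR.x : RR T α β γ) RR.y RR.z RR.w RR.s i) ∈ cP T α β γ
    rw [this]
    exact Ideal.subset_span ⟨i, rfl⟩
  exact h hu

/-- a prime containing `cP`, `s` and `t` is the maximal ideal -/
theorem eq_max [IsLocalRing (RR T α β γ)] [IsLocalRing (RP T α β γ)] (hB : Base T α β γ)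
    (P : Ideal (RP T α β γ)) [hP : P.IsPrime] (h1 : cP T α β γ ≤ P)
    (h2 : toRP (RR.s : RR T α β γ) ∈ P) (h3 : tv T α β γ ∈ P) :
    maximalIdeal (RP T α β γ) ≤ P := by
  have hq : (P.comap (toRP : RR T α β γ →+* RP T α β γ)) = maximalIdeal (RR T α β γ) :=
    Pool.Agent.W416.Equidim.eq_max_of_le Pool.Agent.H832R3.PS.taskFL hB _
      (fun u hu => h1 (toRP_mem_cP u hu)) h2
  intro f hf
  obtain ⟨u, g, rfl⟩ := exists_decomp f
  refine P.add_mem ?_ (P.mul_mem_left _ h3)
  change u ∈ P.comap (toRP : RR T α β γ →+* RP T α β γ)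
  rw [hq]
  by_contra hu
  have hu' : IsUnit u := by
    by_contra hcon
    exact hu ((mem_maximalIdeal _).mpr hcon)
  have hu2 : IsUnit (toRP u : RP T α β γ) := hu'.map toRP
  have ht : tv T α β γ ∈ maximalIdeal (RP T α β γ) := le_maximalIdeal hP.ne_top h3
  have h4 : (toRP u : RP T α β γ) ∈ maximalIdeal (RP T α β γ) := by
    have h5 := (maximalIdeal (RP T α β γ)).sub_mem hf
      ((maximalIdeal (RP T α β γ)).mul_mem_left g ht)
    rwa [add_sub_cancel_right] at h5
  exact (mem_maximalIdeal _).mp h4 hu2

theorem dim_quot_le [IsLocalRing (RR T α β γ)] [IsLocalRing (RP T α β γ)]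
    (hB : Base T α β γ) : ringKrullDim (RP T α β γ ⧸ cP T α β γ) ≤ 1 := by
  obtain ⟨hα, hβ, hγ⟩ := mem_max hB
  have hne : cP T α β γ ≠ ⊤ := cP_ne_top hα hβ hγ
  haveI : Nontrivial (RP T α β γ ⧸ cP T α β γ) := Ideal.Quotient.nontrivial_iff.mpr hne
  haveI : IsLocalRing (RP T α β γ ⧸ cP T α β γ) :=
    IsLocalRing.of_surjective' (Ideal.Quotient.mk _) Ideal.Quotient.mk_surjective
  haveI : IsNoetherianRing (RP T α β γ) := noeth_RP
  set B := RP T α β γ ⧸ cP T α β γ with hBdef
  let e : B := Ideal.Quotient.mk _ (toRP (RR.s : RR T α β γ) + tv T α β γ)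
  -- `e` lies in the maximal ideal
  have hsm : ¬ IsUnit (RR.s : RR T α β γ) := by
    intro h
    have := h.map (rho : RR T α β γ →+* T)
    exact (mem_maximalIdeal _).mp hγ this
  have hem : e ∈ maximalIdeal B := by
    rw [mem_maximalIdeal, mem_nonunits_iff]
    intro he
    -- a unit modulo `cP` is a unit
    have he1 : IsUnit (toRP (RR.s : RR T α β γ) + tv T α β γ) := by
      by_contra hcon
      have hm : toRP (RR.s : RR T α β γ) + tv T α β γ ∈ maximalIdeal (RP T α β γ) :=
        (mem_maximalIdeal _).mpr hcon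
      obtain ⟨v, hv⟩ := he.exists_right_inv
      obtain ⟨v, rfl⟩ := Ideal.Quotient.mk_surjective v
      have h1 : (Ideal.Quotient.mk (cP T α β γ))
          ((toRP (RR.s : RR T α β γ) + tv T α β γ) * v - 1) = 0 := by
        rw [map_sub, map_mul, map_one]
        exact sub_eq_zero.mpr hv
      rw [Ideal.Quotient.eq_zero_iff_mem] at h1
      have h2 := le_maximalIdeal hne h1
      have h3 := (maximalIdeal (RP T α β γ)).mul_mem_right v hm
      have h4 : (1 : RP T α β γ) ∈ maximalIdeal (RP T α β γ) := by
        have := (maximalIdeal (RP T α β γ)).sub_mem h3 h2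
        rwa [sub_sub_cancel] at this
      exact (Ideal.ne_top_iff_one _).mp (maximalIdeal.isMaximal _).ne_top h4
    have he2 := he1.map (ctm T α β γ)
    rw [map_add, ctm_toRP, ctm_tv, add_zero] at he2
    exact hsm he2
  refine dim_le_one e hem ?_
  intro I hI heI
  -- pull back to `RP`
  let f1 := Ideal.Quotient.mk (cP T α β γ)
  have hPp : (I.comap f1).IsPrime := Ideal.comap_isPrime _ _
  have hc : cP T α β γ ≤ I.comap f1 := by
    intro u hu
    change f1 u ∈ I
    have : f1 u = 0 := Ideal.Quotient.eq_zero_iff_mem.mpr hu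
    rw [this]
    exact I.zero_mem
  have hst : toRP (RR.s : RR T α β γ) + tv T α β γ ∈ I.comap f1 := heI
  have hor : toRP (RR.s : RR T α β γ) ∈ I.comap f1 ∧ tv T α β γ ∈ I.comap f1 := by
    have h0 : toRP (RR.s : RR T α β γ) * tv T α β γ ∈ I.comap f1 := by
      rw [s_mul_tv]; exact (I.comap f1).zero_mem
    rcases hPp.mem_or_mem h0 with h | h
    · refine ⟨h, ?_⟩
      have := (I.comap f1).sub_mem hst h
      rwa [add_sub_cancel_left] at this
    · refine ⟨?_, h⟩
      have := (I.comap f1).sub_mem hst h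
      rwa [add_sub_cancel_right] at this
  have hmax : maximalIdeal (RP T α β γ) ≤ I.comap f1 := eq_max hB _ hc hor.1 hor.2
  have hPm : (I.comap f1).IsMaximal := by
    have : I.comap f1 = maximalIdeal (RP T α β γ) := le_antisymm (le_maximalIdeal hPp.ne_top) hmax
    rw [this]
    exact maximalIdeal.isMaximal _
  have hsurj : Function.Surjective f1 := Ideal.Quotient.mk_surjective
  have hI2 : I = (I.comap f1).map f1 := (Ideal.map_comap_of_surjective _ hsurj I).symm
  have h5 := Ideal.map_eq_top_or_isMaximal_of_surjective f1 hsurj hPm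
  rw [← hI2] at h5
  exact h5.resolve_left hI.ne_top

/-! ### The grade of `cP` -/

/-- the prime of `RP` used for the bound of the grade -/
noncomputable def QQ (T : Type) [CommRing T] (α β γ : T) : Ideal (RP T α β γ) :=
  (Pool.Agent.W416.Equidim.q0 T α β γ).comap (ctm T α β γ)

omit [IsLocalRing T] [IsNoetherianRing T] [IsDomain T] in
theorem toRP_mem_QQ (u : RR T α β γ) : toRP u ∈ QQ T α β γ ↔ u.a ∈ (Ideal.span {α, β} : Ideal T) := by
  change ctm T α β γ (toRP u) ∈ Pool.Agent.W416.Equidim.q0 T α β γ ↔ _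
  rw [ctm_toRP]
  exact Iff.rfl

theorem QQ_prime (hB : Base T α β γ) : (QQ T α β γ).IsPrime := by
  have := hB.prime2
  have h0 : (Pool.Agent.W416.Equidim.q0 T α β γ).IsPrime := Ideal.comap_isPrime _ _
  exact Ideal.comap_isPrime _ _

omit [IsLocalRing T] [IsNoetherianRing T] [IsDomain T] in
theorem cP_le_QQ : cP T α β γ ≤ QQ T α β γ := by
  unfold cP cI
  rw [Ideal.span_le]
  rintro _ ⟨i, rfl⟩
  have : gens (toRP (RR.x : RR T α β γ)) (toRP RR.y) (toRP RR.z) (toRP RR.w) (toRP RR.s) i =
      toRP (gens (RR.x : RR T α β γ) RR.y RR.z RR.w RR.s i) := by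
    fin_cases i <;> simp [gens]
  rw [this, SetLike.mem_coe, toRP_mem_QQ]
  exact rho_gens i

theorem height_QQ (hB : Base T α β γ) : (QQ T α β γ).height ≤ 2 := by
  classical
  haveI : IsNoetherianRing (RP T α β γ) := noeth_RP
  haveI := QQ_prime hB
  have hmin : QQ T α β γ ∈ (Ideal.span ((({toRP (RR.emb α : RR T α β γ),
      toRP (RR.emb β : RR T α β γ)} : Finset (RP T α β γ)) : Set (RP T α β γ)))).minimalPrimes := by
    refine ⟨⟨QQ_prime hB, ?_⟩, ?_⟩
    · rw [Ideal.span_le]
      intro u hu
      rw [Finset.coe_insert, Finset.coe_singleton, Set.mem_insert_iff, Set.mem_singleton_iff] at hu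
      rcases hu with rfl | rfl
      · rw [SetLike.mem_coe, toRP_mem_QQ]
        exact Ideal.subset_span (by simp)
      · rw [SetLike.mem_coe, toRP_mem_QQ]
        exact Ideal.subset_span (by simp)
    · rintro P ⟨hP, hPab⟩ hle
      have hsP : toRP (RR.s : RR T α β γ) ∉ P := by
        intro h
        have := hle h
        rw [toRP_mem_QQ] at this
        exact hB.notMem this
      have hα : toRP (RR.emb α : RR T α β γ) ∈ P := hPab (Ideal.subset_span (by simp))
      have hβ : toRP (RR.emb β : RR T α β γ) ∈ P := hPab (Ideal.subset_span (by simp))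
      have ht : tv T α β γ ∈ P := by
        have h0 : toRP (RR.s : RR T α β γ) * tv T α β γ ∈ P := by
          rw [s_mul_tv]; exact P.zero_mem
        exact (hP.mem_or_mem h0).resolve_left hsP
      have hx : toRP (RR.x : RR T α β γ) ∈ P := by
        have h0 : toRP (RR.x : RR T α β γ) * toRP (RR.s : RR T α β γ) ∈ P := by
          rw [← map_mul, RR.xs, map_zero]; exact P.zero_mem
        exact (hP.mem_or_mem h0).resolve_right hsP
      have hw : toRP (RR.w : RR T α β γ) ∈ P := by
        have h0 : toRP (RR.w : RR T α β γ) * toRP (RR.s : RR T α β γ) ∈ P := by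
          rw [← map_mul, RR.ws, map_zero]; exact P.zero_mem
        exact (hP.mem_or_mem h0).resolve_right hsP
      intro f hf
      obtain ⟨u, g, rfl⟩ := exists_decomp f
      have htQ : tv T α β γ ∈ QQ T α β γ := hle ht
      have hu : toRP u ∈ QQ T α β γ := by
        have := (QQ T α β γ).sub_mem hf ((QQ T α β γ).mul_mem_left g htQ)
        rwa [add_sub_cancel_right] at this
      rw [toRP_mem_QQ] at hu
      refine P.add_mem ?_ (P.mul_mem_left _ ht)
      have hua : toRP (RR.emb u.a : RR T α β γ) ∈ P := by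
        have hsub : (Ideal.span {α, β} : Ideal T) ≤
            P.comap ((toRP : RR T α β γ →+* RP T α β γ).comp RR.emb) := by
          rw [Ideal.span_le]
          intro v hv
          rw [Set.mem_insert_iff, Set.mem_singleton_iff] at hv
          rcases hv with rfl | rfl
          · exact hα
          · exact hβ
        exact hsub hu
      rw [RR.decomp u, map_add, map_add, map_mul, map_mul]
      exact P.add_mem (P.add_mem hua (P.mul_mem_left _ hx)) (P.mul_mem_left _ hw)
  refine (Ideal.height_le_card_of_mem_minimalPrimes_span_finset hmin).trans ?_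
  exact_mod_cast Finset.card_le_two

/-- no weakly regular sequence of length three in `cP` -/
theorem taskGradeP : TaskGradeP := by
  intro T _ _ _ _ α β γ hB
  rintro ⟨rs, hlen, hmem, hreg⟩
  haveI : IsNoetherianRing (RP T α β γ) := noeth_RP
  haveI := QQ_prime hB
  have h1 := length_le_height (QQ T α β γ) rs (fun r hr => cP_le_QQ (hmem r hr)) hreg
  have h2 : ((QQ T α β γ).height : WithBot ℕ∞) ≤ 2 := WithBot.coe_le_coe.mpr (height_QQ hB)
  rw [hlen] at h1
  exact absurd (h1.trans h2) (by decide)

theorem taskDimP : TaskDimP := by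
  intro T _ _ _ _ α β γ hB
  obtain ⟨hα, hβ, hγ⟩ := mem_max hB
  haveI : IsLocalRing (RR T α β γ) := taskLoc T α β γ hα hβ hγ
  haveI : IsLocalRing (RP T α β γ) := local_RP
  have h1 := dim_quot_le hB
  have h2 := four_le_dim hB
  calc (2 : WithBot ℕ∞) + ringKrullDim (RP T α β γ ⧸ cP T α β γ) ≤ 2 + 1 := add_le_add le_rfl h1
    _ = 3 := by norm_num
    _ < 4 := by exact_mod_cast (by decide : (3 : ℕ) < 4)
    _ ≤ _ := h2

end Base

end Pool.Agent.Helper53K9.GC
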